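import Pool.Agent.Y489.GE.Stm

/-! From polygons to loops (helper50, project GE of helper489). -/

set_option autoImplicit false

open Set Topology

noncomputable section

namespace Pool.Agent.Y50.GE

open Pool.Agent.Y489.GE

variable {X : Type} [MetricSpace X]

/-- a function which is Lipschitz on the intervals of a grid is Lipschitz -/
theorem glue (f : ℝ → X) {L δ : ℝ} (hδ : 0 < δ)
    (h : ∀ n : ℤ, ∀ s ∈ Icc ((n : ℝ) * δ) ((n + 1) * δ), ∀ t ∈ Icc ((n : ℝ) * δ) ((n + 1) * δ),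
      dist (f s) (f t) ≤ L * |s - t|) (s t : ℝ) : dist (f s) (f t) ≤ L * |s - t| := by
  have step : ∀ n k : ℤ, n ≤ k → dist (f (n * δ)) (f (k * δ)) ≤ L * ((k - n) * δ) := by
    intro n k hnk
    induction k, hnk using Int.leInduction with
    | base => simp
    | succ k hk ih =>
      have h1 := h k (k * δ) ⟨le_rfl, by nlinarith⟩ ((k + 1) * δ) ⟨by nlinarith, le_rfl⟩
      have h2 : |(k : ℝ) * δ - (k + 1) * δ| = δ := by
        rw [show (k : ℝ) * δ - (k + 1) * δ = -δ by ring, abs_neg, abs_of_pos hδ]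
      rw [h2] at h1
      push_cast
      calc dist (f (n * δ)) (f ((k + 1) * δ)) ≤ dist (f (n * δ)) (f (k * δ)) +
            dist (f (k * δ)) (f ((k + 1) * δ)) := dist_triangle _ (f (k * δ)) _
        _ ≤ L * ((k - n) * δ) + L * δ := add_le_add ih h1
        _ = _ := by ring
  have main : ∀ s t : ℝ, s ≤ t → dist (f s) (f t) ≤ L * (t - s) := by
    intro s t hst
    obtain ⟨n, hn⟩ : ∃ n, n = ⌊s / δ⌋ := ⟨_, rfl⟩
    obtain ⟨k, hk⟩ : ∃ k, k = ⌊t / δ⌋ := ⟨_, rfl⟩
    have a1 : (n : ℝ) * δ ≤ s := by rw [← le_div_iff₀ hδ, hn]; exact Int.floor_le _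
    have a2 : s ≤ (n + 1) * δ := by
      rw [← div_le_iff₀ hδ, hn]; exact (Int.lt_floor_add_one _).le
    have b1 : (k : ℝ) * δ ≤ t := by rw [← le_div_iff₀ hδ, hk]; exact Int.floor_le _
    have b2 : t ≤ (k + 1) * δ := by
      rw [← div_le_iff₀ hδ, hk]; exact (Int.lt_floor_add_one _).le
    have hnk : n ≤ k := by
      rw [hn, hk]
      exact Int.floor_mono (div_le_div_of_nonneg_right hst hδ.le)
    rcases hnk.eq_or_lt with heq | hlt
    · subst heq
      have h1 := h n s ⟨a1, a2⟩ t ⟨b1, b2⟩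
      rwa [abs_sub_comm, abs_of_nonneg (by linarith)] at h1
    · have h1 := h n s ⟨a1, a2⟩ ((n + 1) * δ) ⟨by nlinarith, le_rfl⟩
      have h2 := step (n + 1) k hlt
      have h3 := h k (k * δ) ⟨le_rfl, by nlinarith⟩ t ⟨b1, b2⟩
      rw [abs_sub_comm, abs_of_nonneg (by linarith)] at h1 h3
      push_cast at h2
      calc dist (f s) (f t) ≤ dist (f s) (f ((n + 1) * δ)) +
            dist (f ((n + 1) * δ)) (f (k * δ)) + dist (f (k * δ)) (f t) :=
            dist_triangle4 _ _ _ _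
        _ ≤ L * ((n + 1) * δ - s) + L * ((k - (n + 1)) * δ) + L * (t - k * δ) := by
            linarith
        _ = _ := by ring
  rcases le_total s t with hst | hst
  · rw [abs_sub_comm, abs_of_nonneg (by linarith)]
    exact main s t hst
  · rw [dist_comm, abs_of_nonneg (by linarith)]
    exact main t s hst

/-! ## the curve of a polygon -/

/-- the curve of a polygon, with period `N` -/
def bar (m : X → X → ℝ → X) (N : ℕ) (x : ZMod N → X) (u : ℝ) : X :=
  m (x (⌊u⌋ : ℤ)) (x ((⌊u⌋ : ℤ) + 1)) (Int.fract u)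

/-- the clamp to `[0, N]` -/
def cl (N : ℕ) (u : ℝ) : ℝ := max 0 (min u N)

theorem cl_mem (N : ℕ) (u : ℝ) : cl N u ∈ Icc (0 : ℝ) N :=
  ⟨le_max_left _ _, max_le (Nat.cast_nonneg N) (min_le_right _ _)⟩

theorem cl_lip (N : ℕ) (u v : ℝ) : |cl N u - cl N v| ≤ |u - v| := by
  unfold cl
  rw [max_comm 0, max_comm 0]
  refine (abs_max_sub_max_le_abs _ _ _).trans ((abs_min_sub_min_le_max _ _ _ _).trans ?_)
  rw [sub_self, abs_zero, max_eq_left (abs_nonneg _)]

theorem cl_cont (N : ℕ) : Continuous (cl N) := by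
  unfold cl
  fun_prop

theorem cl_of_le {N : ℕ} {u : ℝ} (h : u ≤ 0) : cl N u = 0 := by
  unfold cl
  rw [min_eq_left (h.trans (Nat.cast_nonneg N)), max_eq_left h]

theorem cl_of_ge {N : ℕ} {u : ℝ} (h : (N : ℝ) ≤ u) : cl N u = N := by
  unfold cl
  rw [min_eq_right h, max_eq_right (Nat.cast_nonneg N)]

theorem cl_of_mem {N : ℕ} {u : ℝ} (h0 : 0 ≤ u) (h : u ≤ N) : cl N u = u := by
  unfold cl
  rw [min_eq_left h, max_eq_right h0]

/-- the polygon with unit of time `κ` -/
def pol (m : X → X → ℝ → X) (N : ℕ) (κ : ℝ) (x : ZMod N → X) (τ : ℝ) : X :=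
  bar m N x (cl N (τ / κ))

section

variable {r : ℝ} {m : X → X → ℝ → X} (hm : GMap X r m) {N : ℕ} {e : ℝ} (he : e ≤ r)

include hm he

theorem bar_eq {x : ZMod N → X} (hx : x ∈ Pol X N e) (n : ℤ) {u : ℝ}
    (hu : u ∈ Icc (n : ℝ) (n + 1)) : bar m N x u = m (x n) (x (n + 1)) (u - n) := by
  unfold bar
  rcases hu.2.lt_or_eq with hlt | heq
  · have h1 : ⌊u⌋ = n := Int.floor_eq_iff.mpr ⟨hu.1, hlt⟩
    have h2 : Int.fract u = u - n := by rw [Int.fract, h1]
    rw [h1, h2]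
  · have h1 : ⌊u⌋ = n + 1 := by
      rw [heq]
      have : ((n : ℝ) + 1) = ((n + 1 : ℤ) : ℝ) := by push_cast; ring
      rw [this, Int.floor_intCast]
    have h2 : Int.fract u = 0 := by rw [Int.fract, h1, heq]; push_cast; ring
    rw [h1, h2]
    have h3 : u - n = 1 := by rw [heq]; ring
    rw [h3, hm.one _ _ ((hx n).trans he), hm.zero _ _ ((hx _).trans he)]
    push_cast
    rfl

theorem bar_int {x : ZMod N → X} (hx : x ∈ Pol X N e) (n : ℤ) : bar m N x n = x n := by
  rw [bar_eq hm he hx n ⟨le_rfl, by linarith⟩, sub_self, hm.zero _ _ ((hx n).trans he)]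

theorem bar_lip {x : ZMod N → X} (hx : x ∈ Pol X N e) (u v : ℝ) :
    dist (bar m N x u) (bar m N x v) ≤ e * |u - v| := by
  refine glue (bar m N x) one_pos ?_ u v
  intro n s hs t ht
  rw [mul_one, mul_one] at hs ht
  rw [bar_eq hm he hx n hs, bar_eq hm he hx n ht,
    hm.dist_eq _ _ ((hx n).trans he) _ ⟨by linarith [hs.1], by linarith [hs.2]⟩ _
      ⟨by linarith [ht.1], by linarith [ht.2]⟩]
  rw [show s - n - (t - n) = s - t by ring, mul_comm]
  exact mul_le_mul_of_nonneg_right (hx n) (abs_nonneg _)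

theorem bar_cont {Z : Type} [TopologicalSpace Z] {F : Z → ZMod N → X} (hF : Continuous F)
    (hF2 : ∀ z, F z ∈ Pol X N e) (u : ℝ) : Continuous fun z => bar m N (F z) u := by
  unfold bar
  have h1 : Continuous fun z => ((F z (⌊u⌋ : ℤ), F z ((⌊u⌋ : ℤ) + 1), Int.fract u) : X × X × ℝ) :=
    ((continuous_apply _).comp hF).prodMk (((continuous_apply _).comp hF).prodMk continuous_const)
  exact hm.cont.comp_continuous h1
    (fun z => ⟨(hF2 z _).trans he, Int.fract_nonneg u, (Int.fract_lt_one u).le⟩)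

theorem pol_mem {p : X} {x : ZMod N → X} (hx : x ∈ Polp X N e p) {κ a : ℝ}
    (hκ : e ≤ κ) (hκ0 : 0 < κ) (ha : N * κ ≤ a) : pol m N κ x ∈ Om p a := by
  refine ⟨?_, ?_, ?_⟩
  · intro s t
    unfold pol
    refine (bar_lip hm he hx.1 _ _).trans ?_
    have h1 := cl_lip N (s / κ) (t / κ)
    have h2 : |s / κ - t / κ| = |s - t| / κ := by
      rw [← sub_div, abs_div, abs_of_pos hκ0]
    rw [h2] at h1
    calc e * |cl N (s / κ) - cl N (t / κ)| ≤ κ * (|s - t| / κ) :=
          mul_le_mul hκ h1 (abs_nonneg _) hκ0.le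
      _ = |s - t| := by field_simp
  · intro t ht
    unfold pol
    rw [cl_of_le (div_nonpos_of_nonpos_of_nonneg ht hκ0.le)]
    have := bar_int hm he hx.1 0
    rw [Int.cast_zero, Int.cast_zero] at this
    rw [this, hx.2]
  · intro t ht
    unfold pol
    rw [cl_of_ge (by rw [le_div_iff₀ hκ0]; linarith)]
    have := bar_int hm he hx.1 (N : ℤ)
    rw [Int.cast_natCast, Int.cast_natCast, ZMod.natCast_self] at this
    rw [this, hx.2]

end

/-! ## sampling -/

/-- the vertices of the inscribed polygon -/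
def samp (N : ℕ) (δ : ℝ) (γ : ℝ → X) : ZMod N → X := fun i => γ (i.val * δ)

section

variable {N : ℕ} [NeZero N] {δ a : ℝ} {p : X}

theorem samp_int (hNδ : N * δ = a) {γ : ℝ → X} (hγ : γ ∈ Om p a) {n : ℤ} (h0 : 0 ≤ n)
    (h1 : n ≤ N) : samp N δ γ (n : ZMod N) = γ (n * δ) := by
  unfold samp
  have h2 : (((n : ZMod N).val : ℤ)) = n % N := ZMod.val_intCast n
  have h3 : (((n : ZMod N).val : ℝ)) = ((n % N : ℤ) : ℝ) := by exact_mod_cast h2
  rw [h3]
  rcases h1.lt_or_eq with hlt | heq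
  · rw [Int.emod_eq_of_lt h0 hlt]
  · subst heq
    rw [Int.emod_self, Int.cast_zero, zero_mul, Int.cast_natCast, hNδ, hγ.2.1 0 le_rfl,
      hγ.2.2 a le_rfl]

theorem samp_mem (hδ : 0 ≤ δ) (hNδ : N * δ = a) {γ : ℝ → X} (hγ : γ ∈ Om p a) :
    samp N δ γ ∈ Polp X N δ p := by
  have hN : (0 : ℤ) ≤ N := Int.natCast_nonneg N
  refine ⟨?_, ?_⟩
  · intro i
    have e1 : i = (((i.val : ℤ)) : ZMod N) := by
      rw [Int.cast_natCast, ZMod.natCast_zmod_val]
    have e2 : i + 1 = (((i.val : ℤ) + 1 : ℤ) : ZMod N) := by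
      rw [Int.cast_add, Int.cast_one, ← e1]
    have hv := ZMod.val_lt i
    have k1 := samp_int (p := p) hNδ hγ (n := (i.val : ℤ)) (by omega) (by omega)
    have k2 := samp_int (p := p) hNδ hγ (n := (i.val : ℤ) + 1) (by omega) (by omega)
    rw [← e1] at k1
    rw [← e2] at k2
    rw [k1, k2]
    refine (hγ.1 _ _).trans (le_of_eq ?_)
    push_cast
    rw [show (i.val : ℝ) * δ - (i.val + 1) * δ = -δ by ring, abs_neg, abs_of_nonneg hδ]
  · have k1 := samp_int (p := p) hNδ hγ (n := 0) le_rfl hN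
    rw [Int.cast_zero, Int.cast_zero, zero_mul, hγ.2.1 0 le_rfl] at k1
    exact k1

end

/-! ## from the curve to the inscribed polygon -/

/-- the first homotopy -/
def k1 (m : X → X → ℝ → X) (δ : ℝ) (γ : ℝ → X) (u τ : ℝ) : X :=
  m (γ (⌊τ / δ⌋ * δ)) (γ (max ((⌊τ / δ⌋ + u) * δ) τ))
    ((τ - ⌊τ / δ⌋ * δ) / (max ((⌊τ / δ⌋ + u) * δ) τ - ⌊τ / δ⌋ * δ))

section

variable {r : ℝ} {m : X → X → ℝ → X} (hm : GMap X r m) {δ : ℝ} (hδ : 0 < δ) (hδr : δ ≤ r)
  {γ : ℝ → X} (hγ : ∀ s t, dist (γ s) (γ t) ≤ |s - t|) {u : ℝ} (hu : u ∈ Icc (0 : ℝ) 1)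

include hδ hδr hγ hu

/-- the end of the chord is at distance at most `δ` -/
theorem w_mem {n : ℤ} {τ : ℝ} (hτ : τ ∈ Icc ((n : ℝ) * δ) ((n + 1) * δ)) :
    n * δ ≤ max ((n + u) * δ) τ ∧ max ((n + u) * δ) τ ≤ (n + 1) * δ ∧
      dist (γ (n * δ)) (γ (max ((n + u) * δ) τ)) ≤ max ((n + u) * δ) τ - n * δ ∧
      dist (γ (n * δ)) (γ (max ((n + u) * δ) τ)) ≤ r := by
  have h1 : n * δ ≤ max ((n + u) * δ) τ := hτ.1.trans (le_max_right _ _)
  have h2 : max ((n + u) * δ) τ ≤ (n + 1) * δ := by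
    refine max_le ?_ hτ.2
    have := hu.2
    nlinarith
  have h3 : dist (γ (n * δ)) (γ (max ((n + u) * δ) τ)) ≤ max ((n + u) * δ) τ - n * δ := by
    refine (hγ _ _).trans (le_of_eq ?_)
    rw [abs_sub_comm, abs_of_nonneg (by linarith)]
  exact ⟨h1, h2, h3, h3.trans (by linarith)⟩

include hm

theorem k1_eq (n : ℤ) {τ : ℝ} (hτ : τ ∈ Icc ((n : ℝ) * δ) ((n + 1) * δ)) :
    k1 m δ γ u τ = m (γ (n * δ)) (γ (max ((n + u) * δ) τ))
      ((τ - n * δ) / (max ((n + u) * δ) τ - n * δ)) := by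
  unfold k1
  rcases hτ.2.lt_or_eq with hlt | heq
  · have h1 : ⌊τ / δ⌋ = n := by
      rw [Int.floor_eq_iff]
      refine ⟨?_, ?_⟩
      · rw [le_div_iff₀ hδ]; exact hτ.1
      · rw [div_lt_iff₀ hδ]; exact hlt
    rw [h1]
  · have h1 : ⌊τ / δ⌋ = n + 1 := by
      rw [heq, mul_div_cancel_right₀ _ hδ.ne']
      have : ((n : ℝ) + 1) = ((n + 1 : ℤ) : ℝ) := by push_cast; ring
      rw [this, Int.floor_intCast]
    obtain ⟨w1, w2, w3, w4⟩ := w_mem hδ hδr hγ hu hτ
    have hτ' : τ ∈ Icc (((n + 1 : ℤ) : ℝ) * δ) (((n + 1 : ℤ) + 1) * δ) := by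
      push_cast
      rw [heq]
      exact ⟨le_rfl, by nlinarith⟩
    obtain ⟨v1, v2, v3, v4⟩ := w_mem hδ hδr hγ hu hτ'
    rw [h1]
    have e1 : max ((n + u) * δ) τ = τ := by
      apply max_eq_right
      rw [heq]
      have := hu.2
      nlinarith
    have e2 : τ - ((n + 1 : ℤ) : ℝ) * δ = 0 := by push_cast; rw [heq]; ring
    have e3 : τ - n * δ = δ := by rw [heq]; ring
    rw [e2, zero_div, hm.zero _ _ v4, e1, e3, div_self hδ.ne']
    rw [e1] at w4
    rw [hm.one _ _ w4]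
    push_cast
    rw [heq]

theorem k1_lip (s t : ℝ) : dist (k1 m δ γ u s) (k1 m δ γ u t) ≤ |s - t| := by
  have key : ∀ s t, dist (k1 m δ γ u s) (k1 m δ γ u t) ≤ 1 * |s - t| := by
    refine fun s t => glue (k1 m δ γ u) hδ ?_ s t
    -- values on one interval
    intro n
    obtain ⟨w, hw⟩ : ∃ w, w = (n + u) * δ := ⟨_, rfl⟩
    have hw1 : n * δ ≤ w := by rw [hw]; have := hu.1; nlinarith
    have hw2 : w ≤ (n + 1) * δ := by rw [hw]; have := hu.2; nlinarith
    have hd : dist (γ (n * δ)) (γ w) ≤ w - n * δ := by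
      refine (hγ _ _).trans (le_of_eq ?_)
      rw [abs_sub_comm, abs_of_nonneg (by linarith)]
    have hdr : dist (γ (n * δ)) (γ w) ≤ r := hd.trans (by linarith)
    have val1 : ∀ τ ∈ Icc ((n : ℝ) * δ) ((n + 1) * δ), w ≤ τ → k1 m δ γ u τ = γ τ := by
      intro τ hτ hwτ
      obtain ⟨w1, w2, w3, w4⟩ := w_mem hδ hδr hγ hu hτ
      rw [k1_eq hm hδ hδr hγ hu n hτ]
      have e1 : max ((n + u) * δ) τ = τ := max_eq_right (hw ▸ hwτ)
      rw [e1] at w4 ⊢
      rcases hτ.1.eq_or_lt with heq | hlt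
      · rw [heq] at w4 ⊢
        rw [sub_self, zero_div, hm.zero _ _ w4]
      · have hne : τ - n * δ ≠ 0 := (sub_pos.mpr hlt).ne'
        rw [div_self hne, hm.one _ _ w4]
    have val2 : ∀ τ ∈ Icc ((n : ℝ) * δ) ((n + 1) * δ), τ ≤ w → n * δ < w →
        k1 m δ γ u τ = m (γ (n * δ)) (γ w) ((τ - n * δ) / (w - n * δ)) := by
      intro τ hτ hwτ _
      rw [k1_eq hm hδ hδr hγ hu n hτ]
      have e1 : max ((n + u) * δ) τ = w := by rw [← hw]; exact max_eq_left hwτ
      rw [e1]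
    have main : ∀ s ∈ Icc ((n : ℝ) * δ) ((n + 1) * δ), ∀ t ∈ Icc ((n : ℝ) * δ) ((n + 1) * δ),
        s ≤ t → dist (k1 m δ γ u s) (k1 m δ γ u t) ≤ t - s := by
      intro s hs t ht hst
      rcases le_total w s with h1 | h1
      · rw [val1 s hs h1, val1 t ht (h1.trans hst)]
        refine (hγ _ _).trans (le_of_eq ?_)
        rw [abs_sub_comm, abs_of_nonneg (by linarith)]
      · rcases hw1.eq_or_lt with hw0 | hw0
        · -- `w = n δ`, so `s = w`
          have h2 : w ≤ s := by rw [← hw0]; exact hs.1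
          rw [val1 s hs h2, val1 t ht (h2.trans hst)]
          refine (hγ _ _).trans (le_of_eq ?_)
          rw [abs_sub_comm, abs_of_nonneg (by linarith)]
        · have hwp : 0 < w - n * δ := by linarith
          have hsI : (s - n * δ) / (w - n * δ) ∈ Icc (0 : ℝ) 1 :=
            ⟨div_nonneg (by linarith [hs.1]) hwp.le, (div_le_one hwp).mpr (by linarith)⟩
          rcases le_total t w with h2 | h2
          · have htI : (t - n * δ) / (w - n * δ) ∈ Icc (0 : ℝ) 1 :=
              ⟨div_nonneg (by linarith [ht.1]) hwp.le, (div_le_one hwp).mpr (by linarith)⟩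
            rw [val2 s hs h1 hw0, val2 t ht h2 hw0, hm.dist_eq _ _ hdr _ hsI _ htI,
              abs_sub_comm, ← sub_div, show t - n * δ - (s - n * δ) = t - s by ring,
              abs_of_nonneg (div_nonneg (by linarith) hwp.le)]
            calc (t - s) / (w - n * δ) * dist (γ (n * δ)) (γ w) ≤
                (t - s) / (w - n * δ) * (w - n * δ) :=
                  mul_le_mul_of_nonneg_left hd (div_nonneg (by linarith) hwp.le)
              _ = t - s := by field_simp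
          · have k1' : dist (k1 m δ γ u s) (γ w) ≤ w - s := by
              rw [val2 s hs h1 hw0, hm.dist_right hdr hsI]
              have e1 : 1 - (s - n * δ) / (w - n * δ) = (w - s) / (w - n * δ) := by
                field_simp
                ring
              rw [e1]
              calc (w - s) / (w - n * δ) * dist (γ (n * δ)) (γ w) ≤
                  (w - s) / (w - n * δ) * (w - n * δ) :=
                    mul_le_mul_of_nonneg_left hd (div_nonneg (by linarith) hwp.le)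
                _ = w - s := by field_simp
            have k2' : dist (γ w) (γ t) ≤ t - w := by
              refine (hγ _ _).trans (le_of_eq ?_)
              rw [abs_sub_comm, abs_of_nonneg (by linarith)]
            rw [val1 t ht h2]
            linarith [dist_triangle (k1 m δ γ u s) (γ w) (γ t)]
    intro s hs t ht
    rw [one_mul]
    rcases le_total s t with hst | hst
    · rw [abs_sub_comm, abs_of_nonneg (by linarith)]
      exact main s hs t ht hst
    · rw [dist_comm, abs_of_nonneg (by linarith)]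
      exact main t ht s hs hst
  have := key s t
  rwa [one_mul] at this

theorem k1_zero (τ : ℝ) : k1 m δ γ 0 τ = γ τ := by
  have h0 : (0 : ℝ) ∈ Icc (0 : ℝ) 1 := ⟨le_rfl, zero_le_one⟩
  obtain ⟨n, hn⟩ : ∃ n, n = ⌊τ / δ⌋ := ⟨_, rfl⟩
  have hτ : τ ∈ Icc ((n : ℝ) * δ) ((n + 1) * δ) := by
    constructor
    · rw [← le_div_iff₀ hδ, hn]; exact Int.floor_le _
    · rw [← div_le_iff₀ hδ, hn]; exact (Int.lt_floor_add_one _).le
  rw [k1_eq hm hδ hδr hγ h0 n hτ]
  obtain ⟨w1, w2, w3, w4⟩ := w_mem hδ hδr hγ h0 hτ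
  have e1 : max ((n + 0) * δ) τ = τ := by rw [add_zero]; exact max_eq_right hτ.1
  rw [e1] at w4 ⊢
  rcases hτ.1.eq_or_lt with heq | hlt
  · rw [heq] at w4 ⊢
    rw [sub_self, zero_div, hm.zero _ _ w4]
  · have hne : τ - n * δ ≠ 0 := (sub_pos.mpr hlt).ne'
    rw [div_self hne, hm.one _ _ w4]

end

theorem k1_om {r : ℝ} {m : X → X → ℝ → X} (hm : GMap X r m) {N : ℕ} {δ a : ℝ} {p : X}
    (hδ : 0 < δ) (hδr : δ ≤ r) (hNδ : N * δ = a) {γ : ℝ → X} (hγ : γ ∈ Om p a) {u : ℝ}
    (hu : u ∈ Icc (0 : ℝ) 1) : k1 m δ γ u ∈ Om p a := by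
  have hlow : ∀ τ, τ ≤ 0 → k1 m δ γ u τ = p := by
    intro τ hτ
    rcases hτ.lt_or_eq with hlt | heq
    · obtain ⟨n, hn⟩ : ∃ n, n = ⌊τ / δ⌋ := ⟨_, rfl⟩
      have hτ' : τ ∈ Icc ((n : ℝ) * δ) ((n + 1) * δ) := by
        constructor
        · rw [← le_div_iff₀ hδ, hn]; exact Int.floor_le _
        · rw [← div_le_iff₀ hδ, hn]; exact (Int.lt_floor_add_one _).le
      rw [k1_eq hm hδ hδr hγ.1 hu n hτ']
      obtain ⟨w1, w2, w3, w4⟩ := w_mem hδ hδr hγ.1 hu hτ'
      have hn0 : n < 0 := by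
        rw [hn, Int.floor_lt]
        push_cast
        exact div_neg_of_neg_of_pos hlt hδ
      have hn1 : (n : ℝ) + 1 ≤ 0 := by exact_mod_cast hn0
      have e1 : γ (n * δ) = p := hγ.2.1 _ (by nlinarith)
      have e2 : γ (max ((n + u) * δ) τ) = p := hγ.2.1 _ (w2.trans (by nlinarith))
      rw [e1, e2]
      refine hm.self (hδ.le.trans hδr) p ?_
      have h1 : τ ≤ max ((n + u) * δ) τ := le_max_right _ _
      constructor
      · exact div_nonneg (by linarith [hτ'.1]) (by linarith)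
      · exact div_le_one_of_le₀ (by linarith) (by linarith)
    · subst heq
      have hτ' : (0 : ℝ) ∈ Icc (((0 : ℤ) : ℝ) * δ) ((((0 : ℤ) : ℝ) + 1) * δ) := by
        push_cast
        constructor
        · simp
        · simp [hδ.le]
      rw [k1_eq hm hδ hδr hγ.1 hu 0 hτ']
      obtain ⟨w1, w2, w3, w4⟩ := w_mem hδ hδr hγ.1 hu hτ'
      have e0 : (0 : ℝ) - ((0 : ℤ) : ℝ) * δ = 0 := by push_cast; ring
      rw [e0, zero_div, hm.zero _ _ w4]
      exact hγ.2.1 _ (by push_cast; simp)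
  refine ⟨k1_lip hm hδ hδr hγ.1 hu, hlow, ?_⟩
  intro τ hτ
  obtain ⟨n, hn⟩ : ∃ n, n = ⌊τ / δ⌋ := ⟨_, rfl⟩
  have hτ' : τ ∈ Icc ((n : ℝ) * δ) ((n + 1) * δ) := by
    constructor
    · rw [← le_div_iff₀ hδ, hn]; exact Int.floor_le _
    · rw [← div_le_iff₀ hδ, hn]; exact (Int.lt_floor_add_one _).le
  rw [k1_eq hm hδ hδr hγ.1 hu n hτ']
  obtain ⟨w1, w2, w3, w4⟩ := w_mem hδ hδr hγ.1 hu hτ'
  have hn0 : (N : ℤ) ≤ n := by
    rw [hn, Int.le_floor, le_div_iff₀ hδ]
    push_cast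
    linarith
  have hn1 : (N : ℝ) ≤ n := by exact_mod_cast hn0
  have e0 : a ≤ n * δ := by rw [← hNδ]; nlinarith
  have e1 : γ (n * δ) = p := hγ.2.2 _ e0
  have e2 : γ (max ((n + u) * δ) τ) = p := hγ.2.2 _ (e0.trans w1)
  rw [e1, e2]
  refine hm.self (hδ.le.trans hδr) p ?_
  have h1 : τ ≤ max ((n + u) * δ) τ := le_max_right _ _
  constructor
  · exact div_nonneg (by linarith [hτ'.1]) (by linarith)
  · exact div_le_one_of_le₀ (by linarith) (by linarith)

/-- the end of the first homotopy -/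
theorem k1_one {r : ℝ} {m : X → X → ℝ → X} (hm : GMap X r m) {N : ℕ} [NeZero N] {δ a : ℝ}
    {p : X} (hδ : 0 < δ) (hδr : δ ≤ r) (hNδ : N * δ = a) {γ : ℝ → X} (hγ : γ ∈ Om p a) :
    k1 m δ γ 1 = pol m N δ (samp N δ γ) := by
  have h1 : (1 : ℝ) ∈ Icc (0 : ℝ) 1 := ⟨zero_le_one, le_rfl⟩
  have hx := samp_mem (p := p) hδ.le hNδ hγ
  have hpm := pol_mem hm hδr hx le_rfl hδ hNδ.le
  have hkm := k1_om hm hδ hδr hNδ hγ h1
  funext τ
  rcases le_or_gt τ 0 with h0 | h0
  · rw [hkm.2.1 τ h0, hpm.2.1 τ h0]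
  · rcases le_or_gt a τ with ha | ha
    · rw [hkm.2.2 τ ha, hpm.2.2 τ ha]
    · obtain ⟨n, hn⟩ : ∃ n, n = ⌊τ / δ⌋ := ⟨_, rfl⟩
      have hτ' : τ ∈ Icc ((n : ℝ) * δ) ((n + 1) * δ) := by
        constructor
        · rw [← le_div_iff₀ hδ, hn]; exact Int.floor_le _
        · rw [← div_le_iff₀ hδ, hn]; exact (Int.lt_floor_add_one _).le
      have hn0 : 0 ≤ n := by
        rw [hn, Int.floor_nonneg]
        exact div_nonneg h0.le hδ.le
      have hnN : n < N := by
        rw [hn, Int.floor_lt, div_lt_iff₀ hδ]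
        push_cast
        linarith
      rw [k1_eq hm hδ hδr hγ.1 h1 n hτ', max_eq_left hτ'.2]
      unfold pol
      rw [cl_of_mem (div_nonneg h0.le hδ.le) (by rw [div_le_iff₀ hδ]; linarith),
        bar_eq hm hδr hx.1 n (u := τ / δ) ⟨by rw [le_div_iff₀ hδ]; exact hτ'.1,
          by rw [div_le_iff₀ hδ]; exact hτ'.2⟩]
      have s1 := samp_int (p := p) hNδ hγ (n := n) hn0 hnN.le
      have s2 := samp_int (p := p) hNδ hγ (n := n + 1) (by omega) (by omega)
      push_cast at s2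
      rw [s1, s2]
      congr 1
      field_simp
      ring

/-- continuity of the first homotopy -/
theorem k1_cont {r : ℝ} {m : X → X → ℝ → X} (hm : GMap X r m) {δ : ℝ}
    (hδ : 0 < δ) (hδr : δ ≤ r) {Z : Type} [TopologicalSpace Z] {F : Z → ℝ → X} {u : Z → ℝ}
    (hF : Continuous F) (hL : ∀ z s t, dist (F z s) (F z t) ≤ |s - t|) (hu : Continuous u)
    (hu1 : ∀ z, u z ∈ Icc (0 : ℝ) 1) : Continuous fun z => k1 m δ (F z) (u z) := by
  rw [continuous_pi_iff]
  intro τ
  obtain ⟨n, hn⟩ : ∃ n, n = ⌊τ / δ⌋ := ⟨_, rfl⟩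
  have hτ' : τ ∈ Icc ((n : ℝ) * δ) ((n + 1) * δ) := by
    constructor
    · rw [← le_div_iff₀ hδ, hn]; exact Int.floor_le _
    · rw [← div_le_iff₀ hδ, hn]; exact (Int.lt_floor_add_one _).le
  have heq : (fun z => k1 m δ (F z) (u z) τ) = fun z => m (F z (n * δ))
      (F z (max ((n + u z) * δ) τ)) ((τ - n * δ) / (max ((n + u z) * δ) τ - n * δ)) := by
    funext z
    exact k1_eq hm hδ hδr (hL z) (hu1 z) n hτ'
  rw [heq]
  rcases hτ'.1.eq_or_lt with h0 | h0
  · have heq2 : (fun z => m (F z (n * δ)) (F z (max ((n + u z) * δ) τ))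
        ((τ - n * δ) / (max ((n + u z) * δ) τ - n * δ))) = fun z => F z (n * δ) := by
      funext z
      obtain ⟨w1, w2, w3, w4⟩ := w_mem hδ hδr (hL z) (hu1 z) hτ'
      have e0 : τ - n * δ = 0 := by rw [h0]; ring
      rw [e0, zero_div, hm.zero _ _ w4]
    rw [heq2]
    exact (continuous_apply _).comp hF
  · have c1 : Continuous fun z => F z (n * δ) := (continuous_apply _).comp hF
    have cw : Continuous fun z => max ((n + u z) * δ) τ := by fun_prop
    have c2 : Continuous fun z => F z (max ((n + u z) * δ) τ) := eval_cont hF hL cw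
    have c3 : Continuous fun z => (τ - n * δ) / (max ((n + u z) * δ) τ - n * δ) := by
      refine continuous_const.div (cw.sub continuous_const) ?_
      intro z
      have : τ ≤ max ((n + u z) * δ) τ := le_max_right _ _
      linarith
    refine hm.cont.comp_continuous (c1.prodMk (c2.prodMk c3)) ?_
    intro z
    obtain ⟨w1, w2, w3, w4⟩ := w_mem hδ hδr (hL z) (hu1 z) hτ'
    have h1 : τ ≤ max ((n + u z) * δ) τ := le_max_right _ _
    refine ⟨w4, div_nonneg (by linarith) (by linarith), div_le_one_of_le₀ (by linarith)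
      (by linarith)⟩

/-! ## continuity of the curves of polygons -/

theorem samp_cont {Z : Type} [TopologicalSpace Z] {N : ℕ} {δ : ℝ} {F : Z → ℝ → X}
    (hF : Continuous F) : Continuous fun z => samp N δ (F z) := by
  rw [continuous_pi_iff]
  intro i
  exact (continuous_apply _).comp hF

theorem pol_cont {r : ℝ} {m : X → X → ℝ → X} (hm : GMap X r m) {N : ℕ} {e : ℝ} (he0 : 0 < e)
    (he : e ≤ r) {Z : Type} [TopologicalSpace Z] {F : Z → ZMod N → X} {κ : Z → ℝ}
    (hF : Continuous F) (hF2 : ∀ z, F z ∈ Pol X N e) (hκ : Continuous κ) (hκ0 : ∀ z, 0 < κ z) :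
    Continuous fun z => pol m N (κ z) (F z) := by
  rw [continuous_pi_iff]
  intro τ
  have c1 : Continuous fun z => (fun s => bar m N (F z) (s / e) : ℝ → X) := by
    rw [continuous_pi_iff]
    intro s
    exact bar_cont hm he hF hF2 _
  have c2 : ∀ z s t, dist (bar m N (F z) (s / e)) (bar m N (F z) (t / e)) ≤ |s - t| := by
    intro z s t
    refine (bar_lip hm he (hF2 z) _ _).trans (le_of_eq ?_)
    rw [← sub_div, abs_div, abs_of_pos he0]
    field_simp
  have c3 : Continuous fun z => e * cl N (τ / κ z) :=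
    continuous_const.mul ((cl_cont N).comp (continuous_const.div hκ fun z => (hκ0 z).ne'))
  have c4 := eval_cont c1 c2 c3
  refine c4.congr ?_
  intro z
  unfold pol
  rw [mul_div_cancel_left₀ _ he0.ne']

/-! ## the theorem -/

theorem t_OM : S_OM := by
  intro X _ r m hm p lam a N _ hlam ha hr hH
  have hN : (0 : ℝ) < N := by
    have : 0 < N := Nat.pos_of_ne_zero (NeZero.ne N)
    exact_mod_cast this
  obtain ⟨δ, hδdef⟩ : ∃ δ, δ = a / N := ⟨_, rfl⟩
  rw [← hδdef] at hr hH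
  have hδ : 0 < δ := by rw [hδdef]; positivity
  have hNδ : N * δ = a := by rw [hδdef]; field_simp
  have hδδ' : δ ≤ lam * δ := by nlinarith
  have hδ' : 0 < lam * δ := by linarith
  have hδr : δ ≤ r := hδδ'.trans hr
  have hNδ' : N * (lam * δ) = lam * a := by rw [← hNδ]; ring
  have haa : a ≤ lam * a := by nlinarith
  have hsub : Om p a ⊆ Om p (lam * a) := Om.mono haa
  -- constant polygons
  have hpc : ∀ κ : ℝ, pol m N κ (fun _ => p) = fun _ => p := by
    intro κ
    funext τ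
    unfold pol bar
    exact hm.self (hδ.le.trans hδr) p ⟨Int.fract_nonneg _, (Int.fract_lt_one _).le⟩
  have hsc : samp N δ (fun _ => p) = fun _ => p := rfl
  have hval : Continuous fun d : ↥(Om p a) => d.1 := continuous_subtype_val
  -- the first homotopy
  have H1 : Htp (Y := ↥(Om p a)) (W := ℝ → X) (Om p (lam * a)) {d | d.1 = fun _ => p}
      (fun d => d.1) (fun d => pol m N δ (samp N δ d.1)) := by
    refine Htp.mono (T := Om p a) ?_ hsub
    refine Htp.of_clamp (fun d u => k1 m δ d.1 u) ?_ ?_ ?_ ?_ ?_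
    · rw [continuousOn_iff_continuous_domRestrict]
      exact k1_cont hm hδ hδr (F := fun z : ↥{z : ↥(Om p a) × ℝ | z.2 ∈ Icc (0 : ℝ) 1} => z.1.1.1)
        (u := fun z => z.1.2) (by fun_prop) (fun z => z.1.1.2.1) (by fun_prop) (fun z => z.2)
    · intro d u hu
      exact k1_om hm hδ hδr hNδ d.2 hu
    · intro d
      funext τ
      exact k1_zero hm hδ hδr d.2.1 ⟨le_rfl, zero_le_one⟩ τ
    · intro d
      exact k1_one hm hδ hδr hNδ d.2
    · intro d hd u hu
      have hd' : d.1 = fun _ => p := hd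
      funext τ
      change k1 m δ d.1 u τ = d.1 τ
      rw [hd']
      unfold k1
      refine hm.self (hδ.le.trans hδr) p ?_
      have h1 : τ ≤ max ((⌊τ / δ⌋ + u) * δ) τ := le_max_right _ _
      have h2 : (⌊τ / δ⌋ : ℝ) * δ ≤ τ := by rw [← le_div_iff₀ hδ]; exact Int.floor_le _
      exact ⟨div_nonneg (by linarith) (by linarith), div_le_one_of_le₀ (by linarith)
        (by linarith)⟩
  -- the second homotopy
  have hκ : ∀ u ∈ Icc (0 : ℝ) 1, δ ≤ δ + u * (lam * δ - δ) ∧
      δ + u * (lam * δ - δ) ≤ lam * δ := by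
    intro u hu
    have h1 := hu.1
    have h2 := hu.2
    constructor
    · nlinarith
    · nlinarith
  have H2 : Htp (Y := ↥(Om p a)) (W := ℝ → X) (Om p (lam * a)) {d | d.1 = fun _ => p}
      (fun d => pol m N δ (samp N δ d.1)) (fun d => pol m N (lam * δ) (samp N δ d.1)) := by
    refine Htp.of_clamp (fun d u => pol m N (δ + u * (lam * δ - δ)) (samp N δ d.1)) ?_ ?_ ?_ ?_ ?_
    · rw [continuousOn_iff_continuous_domRestrict]
      refine pol_cont hm hδ hδr
        (F := fun z : ↥{z : ↥(Om p a) × ℝ | z.2 ∈ Icc (0 : ℝ) 1} => samp N δ z.1.1.1)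
        (κ := fun z => δ + z.1.2 * (lam * δ - δ)) ?_ (fun z => (samp_mem hδ.le hNδ z.1.1.2).1)
        (by fun_prop) (fun z => lt_of_lt_of_le hδ (hκ _ z.2).1)
      exact samp_cont (by fun_prop)
    · intro d u hu
      refine pol_mem hm hδr (samp_mem hδ.le hNδ d.2) (hκ u hu).1
        (lt_of_lt_of_le hδ (hκ u hu).1) ?_
      rw [← hNδ']
      exact mul_le_mul_of_nonneg_left (hκ u hu).2 hN.le
    · intro d
      simp
    · intro d
      simp
    · intro d hd u hu
      have hd' : d.1 = fun _ => p := hd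
      change pol m N _ (samp N δ d.1) = pol m N _ (samp N δ d.1)
      rw [hd', hsc, hpc, hpc]
  -- the third homotopy
  have H3 : Htp (Y := ↥(Om p a)) (W := ℝ → X) (Om p (lam * a)) {d | d.1 = fun _ => p}
      (fun d => pol m N (lam * δ) (samp N δ d.1)) (fun _ _ => p) := by
    obtain ⟨H, h1, h2, h3, h4, h5⟩ := hH
    have hsm : ∀ d : ↥(Om p a), samp N δ d.1 ∈ Polp X N δ p := fun d => samp_mem hδ.le hNδ d.2
    refine ⟨fun d s => pol m N (lam * δ) (H ⟨samp N δ d.1, hsm d⟩ s), ?_, ?_, ?_, ?_, ?_⟩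
    · refine pol_cont hm hδ' hr
        (F := fun z : ↥(Om p a) × ℝ => H ⟨samp N δ z.1.1, hsm z.1⟩ z.2)
        (κ := fun _ => lam * δ) ?_ (fun z => (h2 _ _).1) continuous_const (fun _ => hδ')
      have c1 : Continuous fun z : ↥(Om p a) × ℝ =>
          ((⟨samp N δ z.1.1, hsm z.1⟩ : ↥(Polp X N δ p)), z.2) := by
        refine Continuous.prodMk ?_ continuous_snd
        exact Continuous.subtype_mk (samp_cont (hval.comp continuous_fst)) _
      exact h1.comp c1
    · intro d s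
      exact pol_mem hm hr (h2 _ _) le_rfl hδ' hNδ'.le
    · intro d s hs
      change pol m N (lam * δ) (H ⟨samp N δ d.1, hsm d⟩ s) = pol m N (lam * δ) (samp N δ d.1)
      rw [h3 _ _ hs]
    · intro d s hs
      change pol m N (lam * δ) (H ⟨samp N δ d.1, hsm d⟩ s) = fun _ => p
      rw [h4 _ _ hs, hpc]
    · intro d hd s
      have hd' : d.1 = fun _ => p := hd
      have h6 : (⟨samp N δ d.1, hsm d⟩ : ↥(Polp X N δ p)) ∈
          {x : ↥(Polp X N δ p) | ∀ i, x.1 i = p} := by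
        intro i
        change samp N δ d.1 i = p
        rw [hd']
        rfl
      change pol m N (lam * δ) (H ⟨samp N δ d.1, hsm d⟩ s) = pol m N (lam * δ) (samp N δ d.1)
      rw [h5 _ h6 s]
  have H4 := (H1.trans H2).trans H3
  exact H4

end Pool.Agent.Y50.GE
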